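import Pool.Agent.AbCubeCf22da.Main

/-!
No binary morphic image of the fixed point `h^∞(0)` of `h : 0 ↦ 03, 1 ↦ 43, 3 ↦ 1, 4 ↦ 01`
avoids long abelian cubes.
-/

set_option autoImplicit false

namespace Pool.Agent.Results.MP_cf22da_co.NoBinaryImage

open Pool.Agent.AbCubeCf22da

/-- All words `h^n(0)` are initial segments of the infinite word `hInf = h^∞(0)`, and there is no
morphism `g` into the binary words such that `g(h^∞(0))` is an infinite word `y` without long
abelian cubes. -/
theorem result :
    (∀ n : ℕ, initial hInf (hPow n).length = hPow n) ∧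
      ¬ ∃ (g : Letter → List (Fin 2)) (y : ℕ → Fin 2),
        IsImage g hInf y ∧ NoLongAbelianCubes y := by
  refine ⟨initial_hInf, ?_⟩
  rintro ⟨g, y, hy, p, hp⟩
  obtain ⟨u, v, w, hcube, hfac, hlen⟩ := exists_cube g y hy p
  have := hp u v w hcube hfac
  omega

end Pool.Agent.Results.MP_cf22da_co.NoBinaryImage
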